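import Mathlib

/-!
Laplacians of weighted graphs, the second eigenvalue, Fiedler vectors and their extrema, and the
graph obtained by attaching a pendant vertex by an edge of weight `x`.
-/

set_option autoImplicit false

namespace Pool.Agent.R709.FI

/-- The (unnormalised) Laplacian `D - W` of a symmetric weight function `W`. -/
noncomputable def lap {V : Type} [Fintype V] [DecidableEq V] (W : V → V → ℝ) : Matrix V V ℝ :=
  Matrix.of fun i j => (if i = j then ∑ k, W i k else 0) - W i j

open Classical in
/-- The weights of an unweighted graph: `1` on edges and `0` otherwise. -/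
noncomputable def wt {V : Type} (G : SimpleGraph V) : V → V → ℝ :=
  fun i j => if G.Adj i j then 1 else 0

open Classical in
/-- The weights of the graph obtained from `G` by adding one new vertex (`none`) and one new edge,
of weight `x`, between the vertex `v` of `G` and the new vertex. -/
noncomputable def pend {V : Type} (G : SimpleGraph V) (v : V) (x : ℝ) : Option V → Option V → ℝ
  | some i, some j => if G.Adj i j then 1 else 0
  | some i, none => if i = v then x else 0
  | none, some i => if i = v then x else 0
  | none, none => 0

/-- `t` is an eigenvalue of the matrix `L`. -/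
def IsEig {V : Type} [Fintype V] (L : Matrix V V ℝ) (t : ℝ) : Prop :=
  ∃ f : V → ℝ, f ≠ 0 ∧ L.mulVec f = t • f

/-- `μ` is the second smallest eigenvalue of the Laplacian `L` of a connected graph, i.e. (the
eigenvalue `0` being simple) the least positive eigenvalue. -/
def IsLam2 {V : Type} [Fintype V] (L : Matrix V V ℝ) (μ : ℝ) : Prop :=
  IsLeast {t : ℝ | 0 < t ∧ IsEig L t} μ

/-- The second smallest eigenvalue of `L` is simple: its eigenspace is one-dimensional. -/
def Lam2Simple {V : Type} [Fintype V] [DecidableEq V] (L : Matrix V V ℝ) : Prop :=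
  ∃ μ, IsLam2 L μ ∧ Module.finrank ℝ (Module.End.eigenspace (Matrix.toLin' L) μ) = 1

/-- `f` is a Fiedler vector of `L`: a unit eigenvector for the second smallest eigenvalue. -/
def IsFiedler {V : Type} [Fintype V] (L : Matrix V V ℝ) (f : V → ℝ) : Prop :=
  ∃ μ, IsLam2 L μ ∧ L.mulVec f = μ • f ∧ ∑ i, f i ^ 2 = 1

/-- The vertex `u` is an extremum of `f`: `f u` is the maximum or the minimum of `f`. -/
def IsExtremum {V : Type} (f : V → ℝ) (u : V) : Prop :=
  (∀ i, f i ≤ f u) ∨ (∀ i, f u ≤ f i)

end Pool.Agent.R709.FI
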