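import Pool.Agent.R709.FI.Main

set_option autoImplicit false
set_option maxHeartbeats 4000000

namespace Pool.Agent.R709.FI

open Matrix

theorem q8_nonneg (f : Fin 8 → ℝ) : 0 ≤ q8 f := by
  unfold q8; positivity

theorem q8_eq_zero {f : Fin 8 → ℝ} (h : q8 f = 0) : ∀ i, f i = f 0 := by
  unfold q8 at h
  have h01 : f 0 - f 1 = 0 := by
    apply pow_eq_zero_iff (n := 2) (by norm_num) |>.1
    nlinarith [sq_nonneg (f 0 - f 1), sq_nonneg (f 0 - f 3), sq_nonneg (f 0 - f 6), sq_nonneg (f 0 - f 7), sq_nonneg (f 1 - f 2), sq_nonneg (f 1 - f 4), sq_nonneg (f 1 - f 5), sq_nonneg (f 2 - f 6), sq_nonneg (f 3 - f 5), sq_nonneg (f 3 - f 7), sq_nonneg (f 4 - f 5)]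
  have h03 : f 0 - f 3 = 0 := by
    apply pow_eq_zero_iff (n := 2) (by norm_num) |>.1
    nlinarith [sq_nonneg (f 0 - f 1), sq_nonneg (f 0 - f 3), sq_nonneg (f 0 - f 6), sq_nonneg (f 0 - f 7), sq_nonneg (f 1 - f 2), sq_nonneg (f 1 - f 4), sq_nonneg (f 1 - f 5), sq_nonneg (f 2 - f 6), sq_nonneg (f 3 - f 5), sq_nonneg (f 3 - f 7), sq_nonneg (f 4 - f 5)]
  have h06 : f 0 - f 6 = 0 := by
    apply pow_eq_zero_iff (n := 2) (by norm_num) |>.1
    nlinarith [sq_nonneg (f 0 - f 1), sq_nonneg (f 0 - f 3), sq_nonneg (f 0 - f 6), sq_nonneg (f 0 - f 7), sq_nonneg (f 1 - f 2), sq_nonneg (f 1 - f 4), sq_nonneg (f 1 - f 5), sq_nonneg (f 2 - f 6), sq_nonneg (f 3 - f 5), sq_nonneg (f 3 - f 7), sq_nonneg (f 4 - f 5)]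
  have h07 : f 0 - f 7 = 0 := by
    apply pow_eq_zero_iff (n := 2) (by norm_num) |>.1
    nlinarith [sq_nonneg (f 0 - f 1), sq_nonneg (f 0 - f 3), sq_nonneg (f 0 - f 6), sq_nonneg (f 0 - f 7), sq_nonneg (f 1 - f 2), sq_nonneg (f 1 - f 4), sq_nonneg (f 1 - f 5), sq_nonneg (f 2 - f 6), sq_nonneg (f 3 - f 5), sq_nonneg (f 3 - f 7), sq_nonneg (f 4 - f 5)]
  have h12 : f 1 - f 2 = 0 := by
    apply pow_eq_zero_iff (n := 2) (by norm_num) |>.1
    nlinarith [sq_nonneg (f 0 - f 1), sq_nonneg (f 0 - f 3), sq_nonneg (f 0 - f 6), sq_nonneg (f 0 - f 7), sq_nonneg (f 1 - f 2), sq_nonneg (f 1 - f 4), sq_nonneg (f 1 - f 5), sq_nonneg (f 2 - f 6), sq_nonneg (f 3 - f 5), sq_nonneg (f 3 - f 7), sq_nonneg (f 4 - f 5)]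
  have h14 : f 1 - f 4 = 0 := by
    apply pow_eq_zero_iff (n := 2) (by norm_num) |>.1
    nlinarith [sq_nonneg (f 0 - f 1), sq_nonneg (f 0 - f 3), sq_nonneg (f 0 - f 6), sq_nonneg (f 0 - f 7), sq_nonneg (f 1 - f 2), sq_nonneg (f 1 - f 4), sq_nonneg (f 1 - f 5), sq_nonneg (f 2 - f 6), sq_nonneg (f 3 - f 5), sq_nonneg (f 3 - f 7), sq_nonneg (f 4 - f 5)]
  have h15 : f 1 - f 5 = 0 := by
    apply pow_eq_zero_iff (n := 2) (by norm_num) |>.1
    nlinarith [sq_nonneg (f 0 - f 1), sq_nonneg (f 0 - f 3), sq_nonneg (f 0 - f 6), sq_nonneg (f 0 - f 7), sq_nonneg (f 1 - f 2), sq_nonneg (f 1 - f 4), sq_nonneg (f 1 - f 5), sq_nonneg (f 2 - f 6), sq_nonneg (f 3 - f 5), sq_nonneg (f 3 - f 7), sq_nonneg (f 4 - f 5)]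
  intro i
  fin_cases i <;> simp <;> linarith

/-- the test vector -/
def u9 : Option (Fin 8) → ℝ := fun o => o.elim 7 ![1, -3, -10, 7, -2, 1, -8, 7]

theorem exists_eig (x : ℝ) (hx : 0 < x) :
    ∃ μ, 0 < μ ∧ μ < 1 ∧ IsEig (lap (pend G8 3 x)) μ := by
  classical
  set L := lap (pend G8 3 x) with hL
  let J : Matrix (Option (Fin 8)) (Option (Fin 8)) ℝ := Matrix.of fun _ _ => 1
  set M := L + J with hMdef
  have hLs : Lᵀ = L := pend_symm x
  have hJs : Jᵀ = J := by ext i j; simp [J]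
  have hM : M.IsHermitian := by
    rw [Matrix.IsHermitian, hMdef, Matrix.conjTranspose_add, Matrix.conjTranspose_eq_transpose_of_trivial,
      Matrix.conjTranspose_eq_transpose_of_trivial, hLs, hJs]
  have hJv : ∀ F : Option (Fin 8) → ℝ, ∀ i, J.mulVec F i = ∑ j, F j := by
    intro F i
    simp [J, Matrix.mulVec, dotProduct]
  have hform : ∀ F : Option (Fin 8) → ℝ, F ⬝ᵥ M.mulVec F =
      q8 (fun j => F (some j)) + x * (F (some 3) - F none) ^ 2 + (∑ j, F j) ^ 2 := by
    intro F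
    rw [hMdef, Matrix.add_mulVec, dotProduct_add, hL, form_x]
    congr 1
    rw [dotProduct]
    simp only [hJv, ← Finset.sum_mul]
    ring
  have hT : (Matrix.toEuclideanLin M).IsSymmetric := Matrix.isSymmetric_toEuclideanLin_iff.2 hM
  have hev := hT.hasEigenvalue_iInf_of_finiteDimensional
  have hinner : ∀ y : EuclideanSpace ℝ (Option (Fin 8)),
      RCLike.re (inner ℝ (Matrix.toEuclideanLin M y) y) = (WithLp.ofLp y) ⬝ᵥ M.mulVec (WithLp.ofLp y) := by
    intro y
    rw [EuclideanSpace.inner_eq_star_dotProduct]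
    simp
  set ν := (⨅ y : { y : EuclideanSpace ℝ (Option (Fin 8)) // y ≠ 0 },
    RCLike.re (inner ℝ (Matrix.toEuclideanLin M y) (y : EuclideanSpace ℝ (Option (Fin 8)))) /
      ‖(y : EuclideanSpace ℝ (Option (Fin 8)))‖ ^ 2 : ℝ) with hν
  have hbdd : BddBelow (Set.range fun y : { y : EuclideanSpace ℝ (Option (Fin 8)) // y ≠ 0 } =>
    RCLike.re (inner ℝ (Matrix.toEuclideanLin M y) (y : EuclideanSpace ℝ (Option (Fin 8)))) /
      ‖(y : EuclideanSpace ℝ (Option (Fin 8)))‖ ^ 2) := by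
    refine ⟨0, ?_⟩
    rintro _ ⟨y, rfl⟩
    apply div_nonneg _ (sq_nonneg _)
    rw [hinner, hform]
    have := q8_nonneg (fun j => (WithLp.ofLp (y : EuclideanSpace ℝ (Option (Fin 8)))) (some j))
    positivity
  have hu0 : (WithLp.toLp 2 u9 : EuclideanSpace ℝ (Option (Fin 8))) ≠ 0 := by
    intro h
    have := congrArg (fun z : EuclideanSpace ℝ (Option (Fin 8)) => z none) h
    simp [u9] at this
  have hνlt : ν < 1 := by
    refine lt_of_le_of_lt (ciInf_le hbdd ⟨WithLp.toLp 2 u9, hu0⟩) ?_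
    rw [hinner, hform]
    have e1 : ‖(WithLp.toLp 2 u9 : EuclideanSpace ℝ (Option (Fin 8)))‖ ^ 2 = 326 := by
      rw [EuclideanSpace.real_norm_sq_eq, Fintype.sum_option, Fin.sum_univ_eight]
      simp [u9]
      norm_num
    rw [e1]
    simp only [Fintype.sum_option, Fin.sum_univ_eight]
    simp [u9, q8]
    norm_num
  obtain ⟨z, hz⟩ := hev.exists_hasEigenvector
  have hz1 := hz.apply_eq_smul
  have hz2 : M.mulVec (WithLp.ofLp z) = ν • (WithLp.ofLp z) := by
    have := congrArg WithLp.ofLp hz1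
    simpa using this
  have hz0 : WithLp.ofLp z ≠ 0 := by
    intro h
    apply hz.2
    ext i
    simpa using congrFun h i
  set F := WithLp.ofLp z with hF
  have hsum : ∑ j, F j = 0 := by
    have h1 : ∑ i, M.mulVec F i = ν * ∑ i, F i := by
      rw [hz2]; simp only [Pi.smul_apply, smul_eq_mul, ← Finset.mul_sum]
    have h2 : ∑ i, M.mulVec F i = 9 * ∑ i, F i := by
      rw [hMdef, Matrix.add_mulVec]
      simp only [Pi.add_apply, Finset.sum_add_distrib, hJv]
      rw [hL, sum_x, zero_add, Finset.sum_const, Finset.card_univ, nsmul_eq_mul]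
      simp
    have h3 : (9 - ν) * ∑ i, F i = 0 := by rw [sub_mul, ← h1, ← h2]; ring
    exact (mul_eq_zero.1 h3).resolve_left (by linarith)
  have hLF : L.mulVec F = ν • F := by
    have : J.mulVec F = 0 := by
      ext i; rw [hJv, hsum]; rfl
    rw [hMdef, Matrix.add_mulVec, this, add_zero] at hz2
    exact hz2
  have hFF : 0 < F ⬝ᵥ F := by
    rcases (show 0 ≤ F ⬝ᵥ F from by
      rw [dotProduct]; exact Finset.sum_nonneg fun i _ => mul_self_nonneg _).lt_or_eq with h | h
    · exact h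
    · exact absurd (dotProduct_self_eq_zero.1 h.symm) hz0
  have hq : ν * (F ⬝ᵥ F) = q8 (fun j => F (some j)) + x * (F (some 3) - F none) ^ 2 := by
    rw [← form_x, ← hL, hLF, dotProduct_smul, smul_eq_mul]
  have hqn := q8_nonneg (fun j => F (some j))
  have hxn : 0 ≤ x * (F (some 3) - F none) ^ 2 := by positivity
  have hν0 : 0 < ν := by
    have h0 : 0 ≤ ν := by
      by_contra hneg
      push Not at hneg
      nlinarith
    rcases h0.lt_or_eq with h | h
    · exact h
    exfalso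
    rw [← h, zero_mul] at hq
    have h1 : q8 (fun j => F (some j)) = 0 := by linarith
    have h2 : x * (F (some 3) - F none) ^ 2 = 0 := by linarith
    have h3 : F (some 3) - F none = 0 := by
      have := (mul_eq_zero.1 h2).resolve_left hx.ne'
      exact pow_eq_zero_iff (n := 2) (by norm_num) |>.1 this
    have h4 := q8_eq_zero h1
    have h5 : ∀ i, F i = F none := by
      intro i
      cases i with
      | none => rfl
      | some j =>
        have e1 := h4 j
        have e2 := h4 3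
        linarith
    have h6 : ∑ j, F j = 9 * F none := by
      rw [Finset.sum_congr rfl fun j _ => h5 j]
      simp
    rw [hsum] at h6
    have h7 : F none = 0 := by linarith
    apply hz0
    ext i
    rw [h5 i, h7]; rfl
  exact ⟨ν, hν0, hνlt, F, hz0, hLF⟩


/-! ### The graph itself -/

/-- the Fiedler vector of the example, up to scaling -/
def phi : Fin 8 → ℝ := ![0, 0, -2, 1, 1, 1, -2, 1]

theorem phi_ne : phi ≠ 0 := by
  intro h
  have := congrFun h 3
  simp [phi] at this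

theorem phi_eig : (lap (wt G8)).mulVec phi = (1 : ℝ) • phi := by
  ext i
  rw [lap8]
  fin_cases i <;> simp [E, phi] <;> norm_num

theorem isLam2_one : IsLam2 (lap (wt G8)) 1 := by
  refine ⟨⟨one_pos, phi, phi_ne, phi_eig⟩, ?_⟩
  rintro t ⟨ht0, f, hf0, hf⟩
  have hs : ∑ i, f i = 0 := by
    have h1 : ∑ i, (lap (wt G8)).mulVec f i = 0 := by
      simp only [lap8]
      exact E_sum f
    rw [hf] at h1
    simp only [Pi.smul_apply, smul_eq_mul, ← Finset.mul_sum] at h1
    exact (mul_eq_zero.1 h1).resolve_left ht0.ne'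
  have hq : t * (f ⬝ᵥ f) = q8 f := by
    rw [← E_form]
    simp only [← lap8, hf]
    rw [dotProduct, Finset.mul_sum]
    apply Finset.sum_congr rfl
    intro i _
    simp only [Pi.smul_apply, smul_eq_mul]
    ring
  have hge := q8_ge f hs
  have h3 : f ⬝ᵥ f = ∑ i, f i ^ 2 := by
    rw [dotProduct]
    apply Finset.sum_congr rfl; intro i _; ring
  have hff : 0 < f ⬝ᵥ f := by
    rcases (show 0 ≤ f ⬝ᵥ f from by
      rw [dotProduct]; exact Finset.sum_nonneg fun i _ => mul_self_nonneg _).lt_or_eq with h | h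
    · exact h
    · exact absurd (dotProduct_self_eq_zero.1 h.symm) hf0
  rw [← h3, ← hq] at hge
  by_contra hlt
  push Not at hlt
  nlinarith

theorem eig_one {g : Fin 8 → ℝ} (h : (lap (wt G8)).mulVec g = (1 : ℝ) • g) : g = g 3 • phi := by
  have e : ∀ i, E g i = g i := by
    intro i
    rw [← lap8, h, one_smul]
  have e0 := e 0
  have e1 := e 1
  have e2 := e 2
  have e3 := e 3
  have e4 := e 4
  have e5 := e 5
  have e6 := e 6
  have e7 := e 7
  simp [E] at e0 e1 e2 e3 e4 e5 e6 e7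
  ext i
  fin_cases i <;> simp [phi] <;> linarith

theorem simple_one : Lam2Simple (lap (wt G8)) := by
  refine ⟨1, isLam2_one, ?_⟩
  rw [finrank_eq_one_iff_of_nonzero' (⟨phi, by
    rw [Module.End.mem_eigenspace_iff, Matrix.toLin'_apply]; exact phi_eig⟩ :
      Module.End.eigenspace (Matrix.toLin' (lap (wt G8))) 1) (by
        intro h0; exact phi_ne (congrArg Subtype.val h0))]
  rintro ⟨g, hg⟩
  rw [Module.End.mem_eigenspace_iff, Matrix.toLin'_apply] at hg
  refine ⟨g 3, ?_⟩
  ext1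
  simp only [Submodule.coe_smul_of_tower]
  exact (eig_one hg).symm

theorem extremum_three (f : Fin 8 → ℝ) (hf : IsFiedler (lap (wt G8)) f) : IsExtremum f 3 := by
  obtain ⟨μ, hμ, hLf, -⟩ := hf
  have hμ1 : μ = 1 := hμ.unique isLam2_one
  subst hμ1
  have h := eig_one hLf
  rcases le_total 0 (f 3) with h0 | h0
  · left
    intro i
    have : f i = f 3 * phi i := congrFun h i
    rw [this]
    fin_cases i <;> simp [phi] <;> linarith
  · right
    intro i
    have : f i = f 3 * phi i := congrFun h i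
    rw [this]
    fin_cases i <;> simp [phi] <;> linarith

/-! ### The special weight -/

/-- the special weight -/
noncomputable def x0 : ℝ := 382843177920 / 2643816719

/-- the Fiedler vector of the perturbed graph, up to scaling -/
def F0 : Option (Fin 8) → ℝ := fun o => o.elim 19142158896
  ![2787374163, -8902230477, -26183761177, 19027210343, -6277448857, 1805983943, -20696803897,
    19297517063]

theorem F0_ne : F0 ≠ 0 := by
  intro h
  have := congrFun h none
  simp [F0] at this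

theorem F0_eig : (lap (pend G8 3 x0)).mulVec F0 = (20 / 23 : ℝ) • F0 := by
  ext i
  cases i with
  | none =>
    rw [lapx_none]
    simp [F0, x0]
    norm_num
  | some j =>
    rw [lapx_some]
    fin_cases j <;> simp [E, F0, x0] <;> norm_num

theorem x0_pos : 0 < x0 := by unfold x0; norm_num

theorem isLam2_x0 : IsLam2 (lap (pend G8 3 x0)) (20 / 23) :=
  isLam2_of x0_pos (by norm_num) (by norm_num) ⟨F0, F0_ne, F0_eig⟩

theorem not_extremum (f : Option (Fin 8) → ℝ) (hf : IsFiedler (lap (pend G8 3 x0)) f) :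
    ¬ IsExtremum f none := by
  obtain ⟨μ, hμ, hLf, hunit⟩ := hf
  have hμ1 : μ = 20 / 23 := hμ.unique isLam2_x0
  subst hμ1
  have hp := propor x0_pos (by norm_num) (by norm_num) (by norm_num) (by norm_num) hLf F0_eig
  have hf0 : f ≠ 0 := by
    rintro rfl
    simp at hunit
  have hn := none_ne x0_pos (by norm_num) (by norm_num) hLf hf0
  have h7 := congrFun hp (some 7)
  have h2 := congrFun hp (some 2)
  simp [F0] at h7 h2
  rcases lt_or_gt_of_ne hn with hneg | hpos
  · rintro (h | h)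
    · have := h (some 2)
      linarith
    · have := h (some 7)
      linarith
  · rintro (h | h)
    · have := h (some 7)
      linarith
    · have := h (some 2)
      linarith

theorem exists_fiedler {V : Type} [Fintype V] {L : Matrix V V ℝ} {μ : ℝ} (h : IsLam2 L μ) :
    ∃ f, IsFiedler L f := by
  obtain ⟨⟨-, g, hg0, hg⟩, -⟩ := id h
  have hgg : 0 < ∑ i, g i ^ 2 := by
    rcases (show 0 ≤ ∑ i, g i ^ 2 from Finset.sum_nonneg fun i _ => sq_nonneg _).lt_or_eq
      with h1 | h1
    · exact h1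
    · exfalso
      apply hg0
      have := (Finset.sum_eq_zero_iff_of_nonneg (fun i _ => sq_nonneg (g i))).1 h1.symm
      ext i
      exact pow_eq_zero_iff (n := 2) (by norm_num) |>.1 (this i (Finset.mem_univ i))
  refine ⟨(Real.sqrt (∑ i, g i ^ 2))⁻¹ • g, μ, h, ?_, ?_⟩
  · rw [Matrix.mulVec_smul, hg, smul_comm]
  · simp only [Pi.smul_apply, smul_eq_mul, mul_pow, ← Finset.mul_sum]
    rw [inv_pow, Real.sq_sqrt hgg.le, inv_mul_cancel₀ hgg.ne']

end Pool.Agent.R709.FI
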