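import Pool.Agent.R709.FI.Defs

set_option autoImplicit false
set_option maxHeartbeats 4000000

namespace Pool.Agent.R709.FI

open Matrix

/-- adjacency of the example -/
def adjB (i j : Fin 8) : Bool :=
  ([(0,1),(0,3),(0,6),(0,7),(1,2),(1,4),(1,5),(2,6),(3,5),(3,7),(4,5)] :
    List (Fin 8 × Fin 8)).any fun p => (p.1 == i && p.2 == j) || (p.1 == j && p.2 == i)

/-- the example: the edges are 01, 03, 06, 07, 12, 14, 15, 26, 35, 37, 45 -/
def G8 : SimpleGraph (Fin 8) where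
  Adj i j := adjB i j = true
  symm := ⟨by decide⟩
  loopless := ⟨by decide⟩

theorem conn : G8.Connected := by
  have h : ∀ v : Fin 8, G8.Reachable 0 v := by
    have e : ∀ i j : Fin 8, adjB i j = true → G8.Reachable i j := fun i j h =>
      SimpleGraph.Adj.reachable h
    have e1 := e 0 1 (by decide)
    have e3 := e 0 3 (by decide)
    have e6 := e 0 6 (by decide)
    have e7 := e 0 7 (by decide)
    have e2 := e1.trans (e 1 2 (by decide))
    have e4 := e1.trans (e 1 4 (by decide))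
    have e5 := e1.trans (e 1 5 (by decide))
    intro v
    fin_cases v
    · exact SimpleGraph.Reachable.refl _
    · exact e1
    · exact e2
    · exact e3
    · exact e4
    · exact e5
    · exact e6
    · exact e7
  exact ⟨fun u v => (h u).symm.trans (h v)⟩

/-- the quadratic form of the example -/
def q8 (f : Fin 8 → ℝ) : ℝ :=
  (f 0 - f 1)^2 + (f 0 - f 3)^2 + (f 0 - f 6)^2 + (f 0 - f 7)^2 + (f 1 - f 2)^2 + (f 1 - f 4)^2 +
  (f 1 - f 5)^2 + (f 2 - f 6)^2 + (f 3 - f 5)^2 + (f 3 - f 7)^2 + (f 4 - f 5)^2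

theorem q8_ge (f : Fin 8 → ℝ) (h : ∑ i, f i = 0) : ∑ i, f i ^ 2 ≤ q8 f := by
  simp only [Fin.sum_univ_eight] at h ⊢
  have h7 : f 7 = -(f 0 + f 1 + f 2 + f 3 + f 4 + f 5 + f 6) := by linarith
  have key : q8 f - (f 0 ^ 2 + f 1 ^ 2 + f 2 ^ 2 + f 3 ^ 2 + f 4 ^ 2 + f 5 ^ 2 + f 6 ^ 2 + f 7 ^ 2)
      = 2 * (f 0 + f 2 + f 3 + f 4 / 2 + f 5 / 2)^2 +
        2 * (f 0 / 2 + f 1 / 2 + f 3 + f 4 / 2 + f 5 / 2 + f 6)^2 +
        (- f 0 + f 1 + f 3 - f 5)^2 + (f 0 / 2 - f 1 / 2 + f 4 - f 5)^2 +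
        9 / 4 * (f 0 + 7 / 9 * f 1)^2 + 8 / 9 * (f 1)^2 := by
    unfold q8
    rw [h7]
    ring
  have : 0 ≤ q8 f - (f 0 ^ 2 + f 1 ^ 2 + f 2 ^ 2 + f 3 ^ 2 + f 4 ^ 2 + f 5 ^ 2 + f 6 ^ 2 +
    f 7 ^ 2) := by
    rw [key]; positivity
  linarith


theorem lap_mulVec {V : Type} [Fintype V] [DecidableEq V] (W : V → V → ℝ) (f : V → ℝ) (i : V) :
    (lap W).mulVec f i = ∑ k, W i k * (f i - f k) := by
  simp only [lap, Matrix.mulVec, dotProduct, Matrix.of_apply, sub_mul, ite_mul, zero_mul,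
    Finset.sum_sub_distrib, mul_sub]
  rw [Finset.sum_ite_eq Finset.univ i]
  simp [Finset.sum_mul]

/-- the entries of the Laplacian of the example applied to `f` -/
def E (f : Fin 8 → ℝ) : Fin 8 → ℝ :=
  ![4 * f 0 - f 1 - f 3 - f 6 - f 7, 4 * f 1 - f 0 - f 2 - f 4 - f 5, 2 * f 2 - f 1 - f 6,
      3 * f 3 - f 0 - f 5 - f 7, 2 * f 4 - f 1 - f 5, 3 * f 5 - f 1 - f 3 - f 4,
      2 * f 6 - f 0 - f 2, 2 * f 7 - f 0 - f 3]

theorem wt_sum (f : Fin 8 → ℝ) (i : Fin 8) :
    ∑ k, wt G8 i k * (f i - f k) = E f i := by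
  have hd : ∀ i k : Fin 8, wt G8 i k = if adjB i k = true then 1 else 0 := by
    intro i k
    have : G8.Adj i k ↔ adjB i k = true := Iff.rfl
    simp [wt, this]
  simp only [hd]
  rw [Fin.sum_univ_eight]
  fin_cases i <;> simp [adjB, E] <;> ring

/-- the Laplacian of the example, entrywise -/
theorem lap8 (f : Fin 8 → ℝ) (i : Fin 8) : (lap (wt G8)).mulVec f i = E f i := by
  rw [lap_mulVec]
  exact wt_sum f i

theorem lapx_some (x : ℝ) (F : Option (Fin 8) → ℝ) (i : Fin 8) :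
    (lap (pend G8 3 x)).mulVec F (some i) =
      E (fun j => F (some j)) i + (if i = 3 then x * (F (some 3) - F none) else 0) := by
  rw [lap_mulVec, Fintype.sum_option]
  have h := wt_sum (fun j => F (some j)) i
  have h2 : ∑ k : Fin 8, pend G8 3 x (some i) (some k) * (F (some i) - F (some k)) =
      E (fun j => F (some j)) i := h
  rw [h2]
  by_cases hi : i = 3
  · subst hi
    simp [pend]
    ring
  · simp [pend, hi]

theorem lapx_none (x : ℝ) (F : Option (Fin 8) → ℝ) :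
    (lap (pend G8 3 x)).mulVec F none = x * (F none - F (some 3)) := by
  rw [lap_mulVec, Fintype.sum_option]
  simp [pend]

theorem E_form (f : Fin 8 → ℝ) : ∑ i, f i * E f i = q8 f := by
  rw [Fin.sum_univ_eight]
  simp [E, q8]
  ring

theorem E_sum (f : Fin 8 → ℝ) : ∑ i, E f i = 0 := by
  rw [Fin.sum_univ_eight]
  simp [E]
  ring


/-! ### The perturbed graph -/

theorem lap_symm {V : Type} [Fintype V] [DecidableEq V] (W : V → V → ℝ) (hW : ∀ i j, W i j = W j i) :
    (lap W)ᵀ = lap W := by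
  ext i j
  simp only [lap, Matrix.transpose_apply, Matrix.of_apply]
  rw [hW i j]
  by_cases h : i = j
  · subst h; rfl
  · simp [h, Ne.symm h]

theorem dot_symm {V : Type} [Fintype V] [DecidableEq V] {L : Matrix V V ℝ} (hL : Lᵀ = L)
    (f g : V → ℝ) : f ⬝ᵥ L.mulVec g = g ⬝ᵥ L.mulVec f := by
  rw [Matrix.dotProduct_mulVec, ← Matrix.mulVec_transpose, hL, dotProduct_comm]

theorem wt_comm (i j : Fin 8) : wt G8 i j = wt G8 j i := by
  have hd : ∀ i k : Fin 8, wt G8 i k = if adjB i k = true then 1 else 0 := by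
    intro i k
    have : G8.Adj i k ↔ adjB i k = true := Iff.rfl
    simp [wt, this]
  rw [hd, hd]
  revert i j
  have : ∀ i j : Fin 8, adjB i j = adjB j i := by decide
  intro i j
  rw [this]

theorem pend_symm (x : ℝ) : (lap (pend G8 3 x))ᵀ = lap (pend G8 3 x) := by
  apply lap_symm
  intro i j
  cases i with
  | none => cases j <;> rfl
  | some i =>
    cases j with
    | none => rfl
    | some j =>
      exact wt_comm i j

theorem wt_symm : (lap (wt G8))ᵀ = lap (wt G8) := by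
  apply lap_symm
  exact wt_comm

theorem form_x (x : ℝ) (F : Option (Fin 8) → ℝ) : F ⬝ᵥ (lap (pend G8 3 x)).mulVec F =
    q8 (fun j => F (some j)) + x * (F (some 3) - F none) ^ 2 := by
  rw [dotProduct, Fintype.sum_option, lapx_none]
  simp only [lapx_some, mul_add, Finset.sum_add_distrib]
  rw [E_form (fun j => F (some j))]
  simp only [mul_ite, mul_zero]
  rw [Finset.sum_ite_eq' Finset.univ (3 : Fin 8)]
  simp
  ring

theorem sum_x (x : ℝ) (F : Option (Fin 8) → ℝ) : ∑ i, (lap (pend G8 3 x)).mulVec F i = 0 := by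
  rw [Fintype.sum_option, lapx_none]
  simp only [lapx_some, Finset.sum_add_distrib]
  rw [E_sum (fun j => F (some j)), Finset.sum_ite_eq' Finset.univ (3 : Fin 8)]
  simp
  ring

theorem eig_sum {x μ : ℝ} (hμ : μ ≠ 0) {F : Option (Fin 8) → ℝ}
    (h : (lap (pend G8 3 x)).mulVec F = μ • F) : ∑ i, F i = 0 := by
  have h1 := sum_x x F
  rw [h] at h1
  simp only [Pi.smul_apply, smul_eq_mul, ← Finset.mul_sum] at h1
  exact (mul_eq_zero.1 h1).resolve_left hμ

theorem key_ge (x : ℝ) (hx : 0 < x) (F : Option (Fin 8) → ℝ) (h0 : F none = 0)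
    (hs : ∑ i, F i = 0) : F ⬝ᵥ F ≤ F ⬝ᵥ (lap (pend G8 3 x)).mulVec F := by
  rw [form_x, dotProduct, Fintype.sum_option, h0]
  rw [Fintype.sum_option, h0, zero_add] at hs
  have := q8_ge (fun j => F (some j)) hs
  have h2 : 0 ≤ x * (F (some 3) - 0) ^ 2 := by positivity
  have h3 : ∑ i, F (some i) * F (some i) = ∑ i, F (some i) ^ 2 := by
    apply Finset.sum_congr rfl; intro i _; ring
  rw [h3]
  linarith

/-- two eigenvectors with eigenvalues in `(0,1)` are proportional -/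
theorem propor {x μ ν : ℝ} (hx : 0 < x) (hμ0 : 0 < μ) (hμ1 : μ < 1) (hν0 : 0 < ν) (hν1 : ν < 1)
    {F G : Option (Fin 8) → ℝ} (hF : (lap (pend G8 3 x)).mulVec F = μ • F)
    (hG : (lap (pend G8 3 x)).mulVec G = ν • G) : G none • F = F none • G := by
  set L := lap (pend G8 3 x) with hL
  set H : Option (Fin 8) → ℝ := G none • F - F none • G with hH
  have hH0 : H none = 0 := by simp [hH]; ring
  have hHs : ∑ i, H i = 0 := by
    have h1 := eig_sum hμ0.ne' hF
    have h2 := eig_sum hν0.ne' hG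
    simp only [hH, Pi.sub_apply, Pi.smul_apply, smul_eq_mul, Finset.sum_sub_distrib,
      ← Finset.mul_sum, h1, h2]
    ring
  have hLH : L.mulVec H = (G none * μ) • F - (F none * ν) • G := by
    rw [hH, Matrix.mulVec_sub, Matrix.mulVec_smul, Matrix.mulVec_smul, hF, hG, smul_smul, smul_smul]
  have hge := key_ge x hx H hH0 hHs
  rw [← hL, hLH] at hge
  have horth : (μ - ν) * (F ⬝ᵥ G) = 0 := by
    have h1 := dot_symm (pend_symm x) F G
    rw [← hL, hF, hG, dotProduct_smul, dotProduct_smul, dotProduct_comm G F] at h1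
    simp only [smul_eq_mul] at h1
    linarith
  have e1 : H ⬝ᵥ H = (G none)^2 * (F ⬝ᵥ F) - 2 * (G none) * (F none) * (F ⬝ᵥ G) +
      (F none)^2 * (G ⬝ᵥ G) := by
    simp only [hH, sub_dotProduct, dotProduct_sub, smul_dotProduct, dotProduct_smul, smul_eq_mul,
      dotProduct_comm G F]
    ring
  have e2 : H ⬝ᵥ ((G none * μ) • F - (F none * ν) • G) = (G none)^2 * μ * (F ⬝ᵥ F) -
      (G none) * (F none) * (μ + ν) * (F ⬝ᵥ G) + (F none)^2 * ν * (G ⬝ᵥ G) := by
    simp only [hH, sub_dotProduct, dotProduct_sub, smul_dotProduct, dotProduct_smul, smul_eq_mul,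
      dotProduct_comm G F]
    ring
  have hHH : 0 ≤ H ⬝ᵥ H := by
    rw [dotProduct]; exact Finset.sum_nonneg fun i _ => mul_self_nonneg _
  have hzero : H ⬝ᵥ H = 0 := by
    rw [e2] at hge
    rcases eq_or_ne μ ν with h | h
    · subst h
      have : H ⬝ᵥ H ≤ μ * (H ⬝ᵥ H) := by
        calc H ⬝ᵥ H ≤ _ := hge
          _ = μ * (H ⬝ᵥ H) := by rw [e1]; ring
      nlinarith
    · have hFG : F ⬝ᵥ G = 0 := (mul_eq_zero.1 horth).resolve_left (sub_ne_zero.2 h)
      rw [hFG] at hge e1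
      have hFF : 0 ≤ (G none)^2 * (F ⬝ᵥ F) := by
        apply mul_nonneg (sq_nonneg _)
        rw [dotProduct]; exact Finset.sum_nonneg fun i _ => mul_self_nonneg _
      have hGG : 0 ≤ (F none)^2 * (G ⬝ᵥ G) := by
        apply mul_nonneg (sq_nonneg _)
        rw [dotProduct]; exact Finset.sum_nonneg fun i _ => mul_self_nonneg _
      have hA : (1 - μ) * ((G none)^2 * (F ⬝ᵥ F)) + (1 - ν) * ((F none)^2 * (G ⬝ᵥ G)) ≤ 0 := by
        rw [e1] at hge
        linarith
      have hA1 : 0 ≤ (1 - μ) * ((G none)^2 * (F ⬝ᵥ F)) := mul_nonneg (by linarith) hFF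
      have hA2 : 0 ≤ (1 - ν) * ((F none)^2 * (G ⬝ᵥ G)) := mul_nonneg (by linarith) hGG
      have hA3 : (1 - μ) * ((G none)^2 * (F ⬝ᵥ F)) = 0 := by linarith
      have hA4 : (1 - ν) * ((F none)^2 * (G ⬝ᵥ G)) = 0 := by linarith
      have hA5 := (mul_eq_zero.1 hA3).resolve_left (by linarith)
      have hA6 := (mul_eq_zero.1 hA4).resolve_left (by linarith)
      rw [e1, hA5, hA6]
      ring
  have : H = 0 := dotProduct_self_eq_zero.1 hzero
  rw [hH, sub_eq_zero] at this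
  exact this

theorem none_ne {x μ : ℝ} (hx : 0 < x) (hμ0 : 0 < μ) (hμ1 : μ < 1)
    {F : Option (Fin 8) → ℝ} (hF : (lap (pend G8 3 x)).mulVec F = μ • F) (h : F ≠ 0) :
    F none ≠ 0 := by
  intro h0
  have hge := key_ge x hx F h0 (eig_sum hμ0.ne' hF)
  rw [hF, dotProduct_smul, smul_eq_mul] at hge
  have hHH : 0 ≤ F ⬝ᵥ F := by
    rw [dotProduct]; exact Finset.sum_nonneg fun i _ => mul_self_nonneg _
  have : F ⬝ᵥ F = 0 := by nlinarith
  exact h (dotProduct_self_eq_zero.1 this)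

/-- an eigenvalue in `(0,1)` is the second eigenvalue -/
theorem isLam2_of {x μ : ℝ} (hx : 0 < x) (hμ0 : 0 < μ) (hμ1 : μ < 1)
    (h : IsEig (lap (pend G8 3 x)) μ) : IsLam2 (lap (pend G8 3 x)) μ := by
  refine ⟨⟨hμ0, h⟩, ?_⟩
  rintro t ⟨ht0, G, hG0, hG⟩
  by_contra hlt
  push Not at hlt
  obtain ⟨F, hF0, hF⟩ := h
  have hp := propor hx hμ0 hμ1 ht0 (by linarith) hF hG
  have hFn := none_ne hx hμ0 hμ1 hF hF0
  have hGn := none_ne hx ht0 (by linarith) hG hG0
  have h1 : (lap (pend G8 3 x)).mulVec (G none • F) = (lap (pend G8 3 x)).mulVec (F none • G) := by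
    rw [hp]
  rw [Matrix.mulVec_smul, Matrix.mulVec_smul, hF, hG] at h1
  have h2 := congrFun h1 none
  simp only [Pi.smul_apply, smul_eq_mul] at h2
  have h3 : (μ - t) * (G none * F none) = 0 := by linarith
  rcases mul_eq_zero.1 h3 with h4 | h4
  · linarith
  · exact (mul_ne_zero hGn hFn) h4

theorem simple_of {x μ : ℝ} (hx : 0 < x) (hμ0 : 0 < μ) (hμ1 : μ < 1)
    (h : IsEig (lap (pend G8 3 x)) μ) : Lam2Simple (lap (pend G8 3 x)) := by
  refine ⟨μ, isLam2_of hx hμ0 hμ1 h, ?_⟩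
  obtain ⟨F, hF0, hF⟩ := h
  have hFn := none_ne hx hμ0 hμ1 hF hF0
  rw [finrank_eq_one_iff_of_nonzero' (⟨F, by
    rw [Module.End.mem_eigenspace_iff, Matrix.toLin'_apply]; exact hF⟩ :
      Module.End.eigenspace (Matrix.toLin' (lap (pend G8 3 x))) μ) (by
        intro h0; exact hF0 (congrArg Subtype.val h0))]
  rintro ⟨G, hG⟩
  rw [Module.End.mem_eigenspace_iff, Matrix.toLin'_apply] at hG
  have hp := propor hx hμ0 hμ1 hμ0 hμ1 hF hG
  refine ⟨G none / F none, ?_⟩
  ext1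
  simp only [Submodule.coe_smul_of_tower]
  rw [div_eq_inv_mul, ← smul_smul, hp, smul_smul, inv_mul_cancel₀ hFn, one_smul]

end Pool.Agent.R709.FI
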